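import Pool.Agent.Lib.MP_ea1188_al.KG.S.Main

/-! # `K₀(F₂[G])` is `Z` plus a `2`-primary torsion group, `G` the first Grigorchuk group

Definitions: `Pool/Agent/Lib/MP_ea1188_al/KG/S/Stat.lean`.  `F2G` is the group algebra over the
field with two elements of the first Grigorchuk group `G`.  For every finitely generated
projective module `Q` over `R = F₂[G]` there are `m, r, s` such that
`Q^(2^m) ⊕ R^s ≅ R^(2^m r + s)`, so that `2^m ([Q] - r [R]) = 0` in `K₀(R)`. -/

set_option autoImplicit false

namespace Pool.Agent.Results.MP_ea1188_al.K0UpToTwoTorsion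

open GrigK

theorem result :
    ∀ (Q : Type) [AddCommGroup Q] [Module F2G Q] [Module.Finite F2G Q] [Module.Projective F2G Q],
      ∃ m r s : ℕ,
        Nonempty (((Fin (2 ^ m) → Q) × (Fin s → F2G)) ≃ₗ[F2G] (Fin (2 ^ m * r + s) → F2G)) :=
  GrigK.partC

end Pool.Agent.Results.MP_ea1188_al.K0UpToTwoTorsion
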