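import Pool.Agent.Lib.MP_ea1188_al.KG.S.Main

/-! # `K₁(F₂[G])` modulo its elements of infinite height, `G` the first Grigorchuk group

Definitions: `Pool/Agent/Lib/MP_ea1188_al/KG/S/Stat.lean`.  `K1 R = GL(R) / [GL(R), GL(R)]`;
`F2G` is the group algebra over the field with two elements of the first Grigorchuk group `G`.
The quotient of `K₁(F₂[G])` by the subgroup of all elements which are divisible by `2^n` for
every `n` is the direct sum of countably infinitely many copies of each of the groups
`Z/2, Z/4, Z/8, ...`. -/

set_option autoImplicit false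

namespace Pool.Agent.Results.MP_ea1188_al.K1ModInfiniteHeight

open GrigK DirectSum

theorem result :
    Nonempty ((K1 F2G ⧸ infHeight (K1 F2G)) ≃*
      Multiplicative (⨁ p : ℕ × ℕ, ZMod (2 ^ (p.1 + 1)))) :=
  GrigK.partB

end Pool.Agent.Results.MP_ea1188_al.K1ModInfiniteHeight
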