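import Pool.Agent.Lib.MP_ea1188_al.KG.S.Main

/-! # `K₁(F₂[G])` is a `2`-group, `G` the first Grigorchuk group

Definitions: `Pool/Agent/Lib/MP_ea1188_al/KG/S/Stat.lean`.  `K1 R = GL(R) / [GL(R), GL(R)]`;
`F2G` is the group algebra over the field with two elements of the first Grigorchuk group `G`.
Every element of `K₁(F₂[G])` has order a power of `2`. -/

set_option autoImplicit false

namespace Pool.Agent.Results.MP_ea1188_al.K1TwoPrimary

open GrigK

theorem result : ∀ x : K1 F2G, ∃ m : ℕ, x ^ (2 ^ m) = 1 :=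
  GrigK.partA

end Pool.Agent.Results.MP_ea1188_al.K1TwoPrimary
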